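import Pool.Agent.Helper75.OE.GoalsB

/-!
# Packet OE-STATIC (MP_fc0446_an): only one update touches C
-/

open Pool.Agent.Helper73.OE Pool.Agent.Helper73.OE.Sys Pool.Agent.Helper75.OE

namespace Pool.Agent.Helper82.OE

theorem rec_mem {H S L : Type} [Group H] [Fintype L] (X : Sys H S L) (P : Par)
    (u : H × S → ℕ) : ∀ (l : List (H × S)) (O : Edges H S) (f : Cfg H S L) (e' : H × S)
    (O' : Edges H S) (f' : Cfg H S L), Rec X P u l O f e' O' f' → e' ∈ l
  | [], _, _, _, _, _, h => h.elim
  | e :: l, O, f, e', O', f', h => by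
    rcases h with h | h
    · rw [h.1]
      exact List.mem_cons_self
    · exact List.mem_cons_of_mem _ (rec_mem X P u l _ _ e' O' f' h)

theorem static (h1 : B_LOCU) (h2 : B_NOCH) : B_STATIC := by
  intro H S L _ _ X P u l
  induction l with
  | nil =>
    intro O f C e o _ _ hne _
    exact absurd rfl hne
  | cons e' t ih =>
    intro O f C e o hnd ho hne hrec
    have hnd' := List.nodup_cons.1 hnd
    change X.dynL P u t (X.addE O e') (X.Upd P O e'.1 e'.2 (u e') f) o ≠ f o at hne
    change ∃ O' f', Rec X P u (e' :: t) O f e O' f' ∧ (∀ z ∈ C, f' z = f z) ∧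
      (∀ z ∈ C, ∀ r, O' z r ↔ O z r) ∧
      X.Upd P O' e.1 e.2 (u e) f' o =
        X.dynL P u t (X.addE O e') (X.Upd P O e'.1 e'.2 (u e') f) o
    by_cases hee : e' = e
    · subst hee
      refine ⟨O, f, Or.inl ⟨rfl, rfl, rfl⟩, fun z _ => rfl, fun z _ r => Iff.rfl, ?_⟩
      refine (h2 H S L X P u t _ _ o ?_).symm
      intro e'' O' f' hr
      have hm := rec_mem X P u t _ _ e'' O' f' hr
      have hne' : e'' ≠ e' := by
        rintro rfl
        exact hnd'.1 hm
      exact fun hx => Set.disjoint_left.1 (hrec e'' O' f' (Or.inr hr) hne') hx ho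
    · have hdis := hrec e' O f (Or.inl ⟨rfl, rfl, rfl⟩) hee
      have hloc := h1 H S L X P O O f f e' (u e') (fun _ _ => rfl) (fun _ _ _ => Iff.rfl)
      have hf : ∀ z ∈ C, X.Upd P O e'.1 e'.2 (u e') f z = f z := by
        intro z hz
        exact hloc.2.2 z (fun hx => Set.disjoint_left.1 hdis hx hz)
      have hO : ∀ z ∈ C, ∀ r, X.addE O e' z r ↔ O z r := by
        intro z hz r
        refine ⟨?_, fun h => Or.inl h⟩
        rintro (h | h | h)
        · exact h
        · exfalso
          refine (Set.disjoint_left.1 hdis : ∀ ⦃a⦄, a ∈ Ex X P O f e' → a ∉ C) (Or.inl ?_) hz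
          have : z = e'.1 := congrArg Prod.fst h
          rw [this, X.dist_self]
          exact Nat.zero_le _
        · exfalso
          refine (Set.disjoint_left.1 hdis : ∀ ⦃a⦄, a ∈ Ex X P O f e' → a ∉ C) (Or.inr (Or.inl ?_)) hz
          have : z = X.nb e'.1 e'.2 := congrArg Prod.fst h
          rw [this, X.dist_self]
          exact Nat.zero_le _
      obtain ⟨O', f', hr, hf', hO', hU⟩ := ih (X.addE O e') (X.Upd P O e'.1 e'.2 (u e') f) C e o
        hnd'.2 ho (by rw [hf o ho]; exact hne)
        (fun e'' O' f' hr hne' => hrec e'' O' f' (Or.inr hr) hne')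
      exact ⟨O', f', Or.inr hr, fun z hz => (hf' z hz).trans (hf z hz),
        fun z hz r => (hO' z hz r).trans (hO z hz r), hU⟩

end Pool.Agent.Helper82.OE
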