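import Pool.Agent.Helper79.OE.GoalsD
import Pool.Agent.Helper73.OE.Consist

/-!
# Packet OE-MARG (MP_fc0446_an): the marginal of a law with (*)
-/

open MeasureTheory Pool.Agent.Helper73.OE Pool.Agent.Helper79.OE
open scoped ENNReal

namespace Pool.Agent.Helper82.OE

theorem pc_one {H S L : Type} [Group H] (X : Sys H S L) :
    X.PC 1 (({1} : Finset H) : Set H) := by
  refine ⟨by simp, ?_⟩
  intro z hz s hs
  have hz1 : z = 1 := by simpa using hz
  subst hz1
  have h0 : X.dist 1 1 = 0 := (X.dist_eq_zero 1 1).2 rfl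
  omega

open Classical in
theorem starSum_const {H S L : Type} [Group H] [Fintype S] [Fintype L] (X : Sys H S L)
    (Λ : Finset H) (O : Edges H S) (c : ℝ≥0∞) :
    X.starSum Λ O (fun _ => c) = c * X.starSum Λ O (fun _ => 1) := by
  unfold Sys.starSum
  rw [Finset.mul_sum]
  refine Finset.sum_congr rfl fun f _ => ?_
  by_cases h : X.MA O (Λ : Set H) (X.glue Λ f)
  · simp [h]
  · simp [h]

theorem starAvg_const {H S L : Type} [Group H] [Fintype S] [Fintype L] (X : Sys H S L)
    (Λ : Finset H) (O : Edges H S) {o : H} (hΛ : X.PC o (Λ : Set H)) (c : ℝ≥0∞) :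
    X.starAvg Λ O (fun _ => c) = c := by
  unfold Sys.starAvg
  rw [starSum_const, mul_div_assoc,
    ENNReal.div_self (X.starSum_one_ne_zero O hΛ) (X.starSum_ne_top O Λ _ (by simp)), mul_one]

theorem snd_measure {H S L : Type} [Group H] [Countable H] [Fintype S] [Fintype L]
    (X : Sys H S L) (ε : ℝ) (μ : Measure (Cfg H S L × Env H S)) (hμ : X.IsStar ε μ)
    (A : Set (Env H S)) (hA : MeasurableSet A) :
    μ (Prod.snd ⁻¹' A) = Sys.lamE H S A := by
  have hF : Measurable (fun w : Cfg H S L × Env H S => A.indicator (fun _ => (1 : ℝ≥0∞)) w.2) :=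
    (measurable_const.indicator hA).comp measurable_snd
  have h := hμ 1 {1} (pc_one X) _ hF (fun q q' η _ => rfl)
  have h1 : ∫⁻ w : Cfg H S L × Env H S, A.indicator (fun _ => (1 : ℝ≥0∞)) w.2 ∂μ =
      μ (Prod.snd ⁻¹' A) := by
    have h2 : (fun w : Cfg H S L × Env H S => A.indicator (fun _ => (1 : ℝ≥0∞)) w.2) =
        (Prod.snd ⁻¹' A).indicator 1 := by
      funext w
      by_cases hw : w.2 ∈ A
      · simp [hw]
      · simp [hw]
    rw [h2]
    exact lintegral_indicator_one (measurable_snd hA)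
  have h3 : ∫⁻ η, X.starAvg {1} (X.Op ε η)
      (fun _ => A.indicator (fun _ => (1 : ℝ≥0∞)) η) ∂(Sys.lamE H S) = Sys.lamE H S A := by
    have h4 : (fun η : Env H S => X.starAvg {1} (X.Op ε η)
        (fun _ => A.indicator (fun _ => (1 : ℝ≥0∞)) η)) = A.indicator 1 := by
      funext η
      rw [starAvg_const X {1} (X.Op ε η) (pc_one X)]
      rfl
    rw [h4]
    exact lintegral_indicator_one hA
  rw [← h1, ← h3]
  exact h

theorem marg : D_MARG := by
  intro H S L _ _ _ _ X ε μ hμ
  have hP : IsProbabilityMeasure (Sys.lamE H S) := by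
    unfold Sys.lamE
    infer_instance
  refine ⟨⟨?_⟩, ?_⟩
  · have h := snd_measure X ε μ hμ Set.univ MeasurableSet.univ
    rw [Set.preimage_univ] at h
    rw [h]
    exact hP.measure_univ
  · ext A hA
    rw [Measure.map_apply measurable_snd hA]
    exact snd_measure X ε μ hμ A hA

end Pool.Agent.Helper82.OE
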