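import Pool.Agent.Helper75.OE.GoalsB

/-!
# Packet OE-NOCH (MP_fc0446_an): an explored set contains every vertex which is changed
-/

open Pool.Agent.Helper73.OE Pool.Agent.Helper73.OE.Sys Pool.Agent.Helper75.OE

namespace Pool.Agent.Helper82.OE

theorem noch (h1 : B_LOCU) : B_NOCH := by
  intro H S L _ _ X P u l
  induction l with
  | nil =>
    intro O f x _
    rfl
  | cons e t ih =>
    intro O f x hx
    have hloc := h1 H S L X P O O f f e (u e) (fun _ _ => rfl) (fun _ _ _ => Iff.rfl)
    have h2 := hx e O f (Or.inl ⟨rfl, rfl, rfl⟩)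
    have h3 := ih (X.addE O e) (X.Upd P O e.1 e.2 (u e) f) x
      (fun e' O' f' hr => hx e' O' f' (Or.inr hr))
    exact h3.trans (hloc.2.2 x h2)

end Pool.Agent.Helper82.OE
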